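import Pool.Agent.H612.LR.MainP

/-!
# Positivity of linear recurrences in `∀ℝ`

Failure of positivity is certified by existential sentences over the reals, for all recurrences
without tight behaviour at the least growth rate: if for some `ρ > 0` the quotients `u_n / ρ^n` are
bounded and have a nonzero lower limit (negative or positive, possibly `-∞` excluded by
boundedness), then either the recurrence is not ultimately positive, which is certified by the
closure of the powers of a point of a torus, or all indices `n` with `u_n ≤ 0` have polynomially
many binary digits. The second case uses a lower bound for positive infima of formulas of the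
existential theory of the reals and a gap between the moduli of characteristic roots. An index `n`
with polynomially many digits is then guessed and the closed form of `u_n` is evaluated by
existential formulas, with repeated squaring.
-/

namespace Pool.Agent.Results.MP_dd7719_lc.Positivity

open Pool.Agent.NPC Pool.Agent.NPC.ER Pool.Agent.H612.LR

theorem result : ∃ f : List Bool → Fm, PolyTime (fun w => bits (f w)) ∧
    (∀ l : Rec, l ≠ [] → ETR (f (bits l)) → ¬ Positive l) ∧
    (∀ l : Rec, l ≠ [] → NonTight0 l → ¬ Positive l → ETR (f (bits l))) := by
  obtain ⟨g, hg, h⟩ := main_pos
  obtain ⟨f, hf, h'⟩ := toStr hg
  refine ⟨f, hf, fun l hl => ?_, fun l hl => ?_⟩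
  · rw [h']; exact (h l hl).1
  · rw [h']; exact (h l hl).2

end Pool.Agent.Results.MP_dd7719_lc.Positivity
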