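import Pool.Agent.H612.LR.Main

/-!
# Ultimate Positivity of linear recurrences in `∀ℝ`

Failure of ultimate positivity is certified by existential sentences over the reals. The closure of
the powers of a point `γ` of a torus is certified without computing the lattice of multiplicative
relations: write `γ_i = ζ^(P_i) ξ_0^(p_0i) ξ_1^(p_1i) ...` with `ζ^q = 1`, exponents with
polynomially many binary digits, and unimodular `ξ_j` each of which is much closer to `1` than the
preceding one (`Chain`). Multiplicative relations of moderate size are then orthogonal to all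
exponent vectors, relations of moderate size generate all relations rationally (heights,
Dobrowolski's theorem), and by Kronecker's theorem all points `ζ^(m P_i) x_0^(p_0i) ...` with
arbitrary unimodular `x_j` are limits of powers `γ^n`, `n = m` modulo `q`.
-/

namespace Pool.Agent.Results.MP_dd7719_lc.UltimatePositivity

open Pool.Agent.NPC Pool.Agent.NPC.ER Pool.Agent.H612.LR

theorem result : ∃ f : List Bool → Fm, PolyTime (fun w => bits (f w)) ∧
    (∀ l : Rec, l ≠ [] → ETR (f (bits l)) → ¬ UltPositive l) ∧
    (∀ l : Rec, l ≠ [] → (NonTight l ∨ (Simple l ∧ EqualModulus l)) → ¬ UltPositive l →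
      ETR (f (bits l))) ∧
    (GrowthTheorem → ∀ l : Rec, l ≠ [] → Simple l → ¬ UltPositive l → ETR (f (bits l))) := by
  obtain ⟨g, hg, h⟩ := main_up
  obtain ⟨f, hf, h'⟩ := toStr hg
  refine ⟨f, hf, fun l hl => ?_, fun l hl => ?_, fun hG l hl => ?_⟩
  · rw [h']; exact (h l hl).1
  · rw [h']; exact (h l hl).2.1
  · rw [h']; exact (h l hl).2.2 hG

end Pool.Agent.Results.MP_dd7719_lc.UltimatePositivity
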